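import Pool.Agent.U901.GL.Inc
import Pool.Agent.N60.ZG.APPP

/-!
# The gcd recursion with `n^p - 1`: many very large gcds between two consecutive zeros

Let `n < n'` be consecutive zeros of the recursion, `n ≥ p`, `x = n / p`. The gcds which are
subtracted at the steps between them divide `k^p - 1` and add up to the value `V = (n+1)^p - 1` at
the step `n + 1`. By the starting result ZeroGaps there are at least `c (log x)²` steps. Here: if
there are few steps, less than `x ^ δ / 24`, then at least `c δ² (log x)²` of the gcds are very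
large, at least `V / x ^ (2δ)`; this bound is uniform in `p`.

The sequence of the large gcds alone satisfies the hypotheses of the main inequality of project ZG
(starting files N60.ZG).
-/

set_option autoImplicit false

namespace Pool.Agent.Results.MP_e7655a_nt.ManyLargeGcds

open Pool.Agent.U901.GL Pool.Agent.N60.ZG

/-- `a` is the recursion of the problem. -/
def IsRec (p : ℕ) (a : ℕ → ℤ) : Prop :=
  a 1 = 1 ∧ ∀ n : ℕ, 2 ≤ n →
    a n = |a (n - 1) - ((Int.gcd (a (n - 1)) ((n : ℤ) ^ p - 1) : ℕ) : ℤ)|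

/-- `n < n'` are consecutive zeros of `a`. -/
def ConsecutiveZeros (a : ℕ → ℤ) (n n' : ℕ) : Prop :=
  1 ≤ n ∧ n < n' ∧ a n = 0 ∧ a n' = 0 ∧ ∀ k, n < k → k < n' → a k ≠ 0

/-- The number of the steps `k` with `n + 2 ≤ k ≤ n'` at which the gcd of `a (k - 1)` and
`k ^ p - 1` is at least `B`. -/
noncomputable def numLarge (p : ℕ) (a : ℕ → ℤ) (n n' : ℕ) (B : ℝ) : ℕ :=
  {k : ℕ | n + 2 ≤ k ∧ k ≤ n' ∧ B ≤ (Int.gcd (a (k - 1)) ((k : ℤ) ^ p - 1) : ℝ)}.ncard

/-- There is an absolute constant `c > 0` such that for all primes `p`, the recursion `a = a_p` of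
the problem, all consecutive zeros `n < n'` with `n ≥ p` and all `0 < δ ≤ 1/2`, with `x = n / p`:
either `24 (n' - n) ≥ x ^ δ`, or at least `c δ² (log x)²` of the gcds subtracted between the two
zeros are at least `((n + 1)^p - 1) / x ^ (2δ)`. -/
theorem result : ∃ c : ℝ, 0 < c ∧ ∀ p : ℕ, p.Prime → ∀ a : ℕ → ℤ, IsRec p a →
    ∀ n n' : ℕ, ConsecutiveZeros a n n' → p ≤ n → ∀ δ : ℝ, 0 < δ → δ ≤ 1 / 2 →
      ((n : ℝ) / p) ^ δ ≤ 24 * ((n' : ℝ) - n) ∨
      c * δ ^ 2 * (Real.log ((n : ℝ) / p)) ^ 2 ≤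
        numLarge p a n n' ((((n : ℝ) + 1) ^ p - 1) / ((n : ℝ) / p) ^ (2 * δ)) := by
  refine ⟨1 / 10 ^ 6, by positivity, ?_⟩
  rintro p hp a ⟨ha1, hrec⟩ n f ⟨hn, hnf, han, haf, hmin⟩ hpn δ hδ hδ2
  have hp1 : 1 ≤ p := hp.one_lt.le
  have hnonneg : ∀ k, 1 ≤ k → 0 ≤ a k := by
    intro k hk
    rcases Nat.lt_or_ge k 2 with h | h
    · have : k = 1 := by omega
      rw [this, ha1]
      norm_num
    · rw [hrec k h]
      exact abs_nonneg _
  have hVabs : ∀ k : ℕ, 1 ≤ k → ((k : ℤ) ^ p - 1).natAbs = k ^ p - 1 := by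
    intro k hk
    have h1 : 1 ≤ k ^ p := Nat.one_le_pow _ _ hk
    have h2 : ((k : ℤ) ^ p - 1) = ((k ^ p - 1 : ℕ) : ℤ) := by
      push_cast [Nat.cast_sub h1]
      ring
    rw [h2, Int.natAbs_natCast]
  have hstart : (a (n + 1)).natAbs = (n + 1) ^ p - 1 := by
    have h1 := hrec (n + 1) (by omega)
    rw [Nat.add_sub_cancel, han] at h1
    rw [h1, Int.natAbs_abs, zero_sub, Int.natAbs_neg, Int.natAbs_natCast, Int.gcd_zero_left]
    exact hVabs (n + 1) (by omega)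
  have hVpos : 0 < (n + 1) ^ p - 1 := by
    have : 2 ^ 1 ≤ (n + 1) ^ p := by
      calc 2 ^ 1 ≤ 2 ^ p := Nat.pow_le_pow_right (by norm_num) hp1
        _ ≤ (n + 1) ^ p := Nat.pow_le_pow_left (by omega) p
    omega
  have hf2 : n + 1 < f := by
    rcases Nat.lt_or_ge (n + 1) f with h | h
    · exact h
    · exfalso
      have h1 : f = n + 1 := by omega
      rw [h1] at haf
      rw [haf] at hstart
      simp only [Int.natAbs_zero] at hstart
      omega
  have hgcd : ∀ k, 1 ≤ k → Int.gcd (a (k - 1)) ((k : ℤ) ^ p - 1) =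
      Nat.gcd (a (k - 1)).natAbs (k ^ p - 1) := by
    intro k hk
    rw [Int.gcd_eq_natAbs, hVabs k hk]
  have hstep : ∀ k, n + 1 < k → k ≤ f → 0 < (a (k - 1)).natAbs ∧
      (a k).natAbs + Nat.gcd (a (k - 1)).natAbs (k ^ p - 1) = (a (k - 1)).natAbs := by
    intro k hk1 hk2
    have h0 : a (k - 1) ≠ 0 := hmin (k - 1) (by omega) (by omega)
    have h1 : 0 < (a (k - 1)).natAbs := Int.natAbs_pos.2 h0
    have h2 := hgcd k (by omega)
    have h3 : Nat.gcd (a (k - 1)).natAbs (k ^ p - 1) ≤ (a (k - 1)).natAbs :=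
      Nat.le_of_dvd h1 (Nat.gcd_dvd_left _ _)
    have h4 : ((a (k - 1)).natAbs : ℤ) = a (k - 1) := Int.natAbs_of_nonneg (hnonneg _ (by omega))
    refine ⟨h1, ?_⟩
    have h5 := hrec k (by omega)
    rw [h2] at h5
    obtain ⟨G, hG⟩ : ∃ G : ℕ, G = Nat.gcd (a (k - 1)).natAbs (k ^ p - 1) := ⟨_, rfl⟩
    rw [← hG] at h3 h5 ⊢
    have h6 : 0 ≤ a (k - 1) - G := by omega
    rw [abs_of_nonneg h6] at h5
    omega
  have hD : IncDes (n + 1) f (fun k => (a k).natAbs) (fun k => k ^ p - 1) :=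
    { lt := hf2
      start := hstart
      zero := by simp [haf]
      pos := hVpos
      step := hstep
      inc := fun k hk _ => by
        have h1 : k ^ p < (k + 1) ^ p := Nat.pow_lt_pow_left (by omega) (by omega)
        have h2 : 1 ≤ k ^ p := Nat.one_le_pow _ _ (by omega)
        show k ^ p - 1 < (k + 1) ^ p - 1
        omega }
  obtain ⟨x, hx⟩ : ∃ x : ℝ, x = (n : ℝ) / p := ⟨_, rfl⟩
  rw [← hx]
  rcases le_or_gt (x ^ δ) (24 * ((f : ℝ) - n)) with h | hcon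
  · exact Or.inl h
  right
  obtain ⟨H, hH⟩ : ∃ H : ℕ, f = (n + 1) + H := ⟨f - (n + 1), by omega⟩
  have hH1 : 1 ≤ H := by omega
  have hp0 : (0 : ℝ) < p := by exact_mod_cast hp1
  have hHr1 : (1 : ℝ) ≤ H := by exact_mod_cast hH1
  have hx1 : 1 ≤ x := by
    rw [hx, le_div_iff₀ hp0, one_mul]
    exact_mod_cast hpn
  have hx0 : 0 < x := by linarith
  obtain ⟨y, hy⟩ : ∃ y : ℝ, y = x ^ δ := ⟨_, rfl⟩
  rw [← hy] at hcon
  have hy1 : 1 ≤ y := by
    rw [hy]
    exact Real.one_le_rpow hx1 hδ.le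
  have hHy : 24 * (H : ℝ) ≤ y := by
    have : (f : ℝ) = n + 1 + H := by
      rw [hH]
      push_cast
      ring
    rw [this] at hcon
    linarith
  have hy2 : x ^ (2 * δ) = y ^ 2 := by
    rw [hy, ← Real.rpow_natCast, ← Real.rpow_mul hx0.le]
    congr 1
    push_cast
    ring
  have hyx : y ^ 2 ≤ x := by
    rw [← hy2]
    calc x ^ (2 * δ) ≤ x ^ (1 : ℝ) := Real.rpow_le_rpow_of_exponent_le hx1 (by linarith)
      _ = x := Real.rpow_one _
  have hyy : y ≤ y ^ 2 := by nlinarith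
  have hnr : (x : ℝ) ≤ ((n + 1 : ℕ) : ℝ) / p := by
    rw [hx]
    refine div_le_div_of_nonneg_right ?_ hp0.le
    push_cast
    linarith
  have hHn : (H : ℝ) ≤ ((n + 1 : ℕ) : ℝ) / p := by linarith
  have hxp : x * p ≤ ((n + 1 : ℕ) : ℝ) := by
    rw [le_div_iff₀ hp0] at hnr
    exact hnr
  have e1 : (((n + 1 + H) ^ p - 1 : ℕ) : ℝ) = (((n + 1 + H : ℕ) : ℝ)) ^ p - 1 := by
    rw [Nat.cast_sub (Nat.one_le_pow _ _ (by omega)), Nat.cast_pow, Nat.cast_one]
  have e2 : (((n + 1) ^ p - 1 : ℕ) : ℝ) = (((n + 1 : ℕ) : ℝ)) ^ p - 1 := by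
    rw [Nat.cast_sub (Nat.one_le_pow _ _ (by omega)), Nat.cast_pow, Nat.cast_one]
  have hV0 : 4 * y * ((((n + 1 + H) ^ p - 1 : ℕ) : ℝ) - (((n + 1) ^ p - 1 : ℕ) : ℝ)) ≤
      (((n + 1) ^ p - 1 : ℕ) : ℝ) := by
    have h1 := APPP_pow hp1 (by omega : 1 ≤ n + 1) hHn
    have h2 : (2 : ℝ) ≤ (((n + 1 : ℕ) : ℝ)) ^ p := by
      have : 2 ≤ (n + 1) ^ p := by omega
      exact_mod_cast this
    have h5 : (((n + 1 : ℕ) : ℝ)) ^ p = (((n + 1 : ℕ) : ℝ)) ^ (p - 1) * ((n + 1 : ℕ) : ℝ) := by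
      rw [← pow_succ]
      congr 1
      omega
    obtain ⟨Q, hQ⟩ : ∃ Q : ℝ, Q = (((n + 1 : ℕ) : ℝ)) ^ (p - 1) := ⟨_, rfl⟩
    have hQ0 : 0 ≤ Q := by
      rw [hQ]
      positivity
    rw [← hQ] at h1 h5
    have h3 : 4 * y * (3 * H * p * Q) ≤ (((n + 1 : ℕ) : ℝ)) ^ p / 2 := by
      rw [h5]
      have h6 : y * (24 * H) ≤ y * y := mul_le_mul_of_nonneg_left hHy (by linarith)
      have h7 : y * (24 * H) ≤ x := by nlinarith
      have h8 : y * (24 * H) * p ≤ ((n + 1 : ℕ) : ℝ) :=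
        (mul_le_mul_of_nonneg_right h7 hp0.le).trans hxp
      have h9 := mul_le_mul_of_nonneg_left h8 hQ0
      have h10 : 4 * y * (3 * H * p * Q) = Q * (y * (24 * H) * p) / 2 := by ring
      rw [h10]
      linarith
    rw [e1, e2]
    calc 4 * y * ((((n + 1 + H : ℕ) : ℝ)) ^ p - 1 - ((((n + 1 : ℕ) : ℝ)) ^ p - 1)) =
          4 * y * ((((n + 1 + H : ℕ) : ℝ)) ^ p - (((n + 1 : ℕ) : ℝ)) ^ p) := by ring
      _ ≤ 4 * y * (3 * H * p * Q) := mul_le_mul_of_nonneg_left h1 (by linarith)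
      _ ≤ (((n + 1 : ℕ) : ℝ)) ^ p / 2 := h3
      _ ≤ _ := by linarith
  obtain ⟨W, hW⟩ : ∃ W : ℝ, W = ((n : ℝ) + 1) ^ p - 1 := ⟨_, rfl⟩
  have hWV : (((n + 1) ^ p - 1 : ℕ) : ℝ) = W := by
    rw [e2, hW]
    push_cast
    ring
  have hW0 : 0 < W := by
    rw [← hWV]
    exact_mod_cast hVpos
  rw [← hW, hy2]
  have hfH : (f : ℝ) - ((n + 1 : ℕ) : ℝ) = H := by
    rw [hH]
    push_cast
    ring
  have hmain := hD.many (B := W / y ^ 2) (Z := y) (by positivity) hy1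
    (by
      rw [hH]
      exact hV0)
    (by
      rw [hfH, hWV]
      have e1 : 8 * y * ((H : ℝ) * (W / y ^ 2)) = 8 * H * (W / y) := by
        field_simp
      rw [e1]
      have e2 : W / y * y = W := by field_simp
      have e3 : 0 < W / y := by positivity
      nlinarith)
  have hlog : Real.log y = δ * Real.log x := by
    rw [hy, Real.log_rpow hx0]
  rw [hlog] at hmain
  have hcard : (bigI (n + 1) f (fun k => (a k).natAbs) (fun k => k ^ p - 1) (W / y ^ 2)).card =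
      numLarge p a n f (W / y ^ 2) := by
    rw [numLarge, ← Set.ncard_coe_finset]
    congr 1
    ext k
    simp only [Finset.mem_coe, mem_bigI, Set.mem_ofPred_eq, gc]
    constructor
    · rintro ⟨⟨h1, h2⟩, h3⟩
      refine ⟨by omega, h2, ?_⟩
      rw [hgcd k (by omega)]
      exact h3
    · rintro ⟨h1, h2, h3⟩
      refine ⟨⟨by omega, h2⟩, ?_⟩
      rw [hgcd k (by omega)] at h3
      exact h3
  rw [hcard] at hmain
  have e : (δ * Real.log x) ^ 2 = δ ^ 2 * (Real.log x) ^ 2 := by ring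
  rw [e] at hmain
  linarith

end Pool.Agent.Results.MP_e7655a_nt.ManyLargeGcds
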