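import Pool.Agent.U449.BV.O
import Pool.Agent.Results.MP_e7655a_nt.ZeroGaps

/-!
# The gcd recursion with `n ^ p - 1`: no zeros near the values of polynomials on arbitrary dense sets

Let `p` be a prime and `f(x, y)` ANY polynomial modulo `p` of degree at most `d` with a monomial which contains both variables (for
example `f = x y`), let `A`, `B` be ARBITRARY sets of residues modulo `p`, `g`, `h` ARBITRARY functions, and `1 ≤ W ≤ p`.
For all but `Θ |A| |B|` of the pairs `(a, b)` in `A × B`, where `Θ ^ 2 = C d e(p) (p / |A| + W p / |B|)`, `e(X) = 1 / (1 + log X) ^ 2`, for the sequence `a_q` of the problem for any prime `q`,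
there is no zero of the sequence at a distance of at most `W` from the least residue of `f(a, b) + g(a) + h(b)`.
So this holds for almost all pairs if `A`, `B` are dense and `W` is small in the same sense as the set of the exceptions is sparse.
More generally, this holds for all functions `F(a, b)` with few coincidences (`Rare`).

Since the sets and the functions `g` and `h` are arbitrary, the values have no arithmetic structure, and a value may be
taken by very many pairs. So the number of the exceptions (starting library) does not give the result directly. Proof: the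
inequality of Cauchy and Schwarz; for most pairs `a, a'` the difference `F(a, b) - F(a', b)` is small for few `b`
(`Pool.Agent.U449.BV`).
-/

set_option autoImplicit false

namespace Pool.Agent.Results.MP_e7655a_nt.MixedOnDenseSets

open Pool.Agent.U449.BV (Rare OnDense on_dense_nat residues)

/-- No zero `n ≥ 1` of the sequence `a` satisfies `|n - x| ≤ W`. -/
def NoZeroNear (a : ℕ → ℤ) (W x : ℝ) : Prop :=
  ∀ n : ℕ, 1 ≤ n → |(n : ℝ) - x| ≤ W → a n ≠ 0

/-- **Theorem.** For every prime `q` and the sequence `a = a_q` of the problem the property that no zero is near holds for almost all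
values of functions of two variables with few coincidences on arbitrary dense sets, with the density `1 / (1 + log X) ^ 2` of
exceptions (`OnDense`).
The least residues modulo `p` of `f(a, b) + g(a) + h(b)` are such a function, bounded by `X = p`, for all primes `p`, all
polynomials `f` modulo `p` with a monomial which contains both variables, arbitrary functions `g` and `h`, and arbitrary sets of
residues. -/
theorem result :
    (∀ q : ℕ, q.Prime → ∀ a : ℕ → ℤ, a 1 = 1 →
      (∀ n : ℕ, 2 ≤ n → a n = |a (n - 1) - ((Int.gcd (a (n - 1)) ((n : ℤ) ^ q - 1) : ℕ) : ℤ)|) →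
      OnDense (fun X => 1 / (1 + Real.log X) ^ (2 : ℝ)) (NoZeroNear a)) ∧
    ∀ (p : ℕ) [Fact p.Prime] (d : ℕ) (f : MvPolynomial (Fin 2) (ZMod p)), f.totalDegree ≤ d →
      (∃ m ∈ f.support, m 0 ≠ 0 ∧ m 1 ≠ 0) → ∀ (g h : ZMod p → ZMod p) (A B : Finset (ZMod p)),
        Rare d A B (fun a b => (((MvPolynomial.eval ![a, b] f + g a + h b).val : ℕ) : ℝ)) := by
  refine ⟨fun q hq a h1 h2 => ?_, residues⟩
  obtain ⟨c, -, h⟩ := ZeroGaps.result
  obtain ⟨C, hC⟩ := (h q hq a h1 h2).2
  refine on_dense_nat (Good := fun n => a n ≠ 0) (K := C) (by norm_num) ⟨2, fun x hx => ?_⟩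
  have h3 := hC x hx
  rw [← Real.rpow_natCast (Real.log (x : ℝ)) 2] at h3
  push_cast at h3
  simp only [ne_eq, not_not]
  exact h3

end Pool.Agent.Results.MP_e7655a_nt.MixedOnDenseSets
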