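import Mathlib
import Pool.Agent.U462.Sh.ZPoly

set_option autoImplicit false

/-!
# The numbers `n` and `q_p(n)`, `p` odd, and the uniform Hardy–Littlewood law for linear forms
-/

namespace Pool.Agent.Results.MP_e7655a_nt.NotFromLinearForms

open Finset Filter
open scoped Topology
open Pool.Agent.U462.Sh.Law

/-- `q_p(n) = ((n + 1) ^ p - 1) / n` -/
def q (p n : ℕ) : ℕ := ((n + 1) ^ p - 1) / n

/-- `1 + (X + 1) + ... + (X + 1) ^ (p - 1)` -/
noncomputable def f (p : ℕ) : Polynomial ℤ := ∑ i ∈ range p, (Polynomial.X + Polynomial.C 1) ^ i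

lemma f_mul (p : ℕ) : f p * Polynomial.X = (Polynomial.X + Polynomial.C 1) ^ p - Polynomial.C 1 := by
  have h := geom_sum_mul (Polynomial.X + Polynomial.C (1 : ℤ)) p
  have h1 : Polynomial.X + Polynomial.C (1 : ℤ) - 1 = Polynomial.X := by simp
  rw [h1] at h
  unfold f
  rw [h]
  simp

lemma f_deg {p : ℕ} (hp : 3 ≤ p) : 2 ≤ (f p).natDegree := by
  have h := f_mul p
  have h1 : ((Polynomial.X + Polynomial.C (1 : ℤ)) ^ p - Polynomial.C 1).natDegree = p := by
    rw [Polynomial.natDegree_sub_C, Polynomial.natDegree_pow, Polynomial.natDegree_X_add_C, mul_one]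
  rw [← h] at h1
  have hf : f p ≠ 0 := by
    intro h0
    rw [h0, zero_mul, Polynomial.natDegree_zero] at h1
    omega
  rw [Polynomial.natDegree_mul_X hf] at h1
  omega

lemma f_eval (p n : ℕ) (hn : 1 ≤ n) : (f p).eval (n : ℤ) = (q p n : ℤ) := by
  have h := Nat.geomSum_eq (m := n + 1) (by omega) p
  rw [Nat.add_sub_cancel] at h
  unfold f q
  rw [← h, Polynomial.eval_finsetSum]
  push_cast
  apply sum_congr rfl
  intro i _
  simp

/-- **The primality of `n` and `q_p(n)` is independent of the linear forms.** For every `p ≥ 3` there is a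
set `S` of rough numbers `≥ 2` with the uniform Hardy–Littlewood law for all systems of linear forms and all
intervals, without exception, such that for no `n ≥ 1` at all both `n` and `q_p(n)` belong to `S` (so that,
with `S` in place of the set of primes, Q1 fails for `p` at each of the infinitely many zeros of `a_p`). -/
theorem result : ∀ p : ℕ, 3 ≤ p → ∃ S : Set ℕ, (∀ m ∈ S, 2 ≤ m ∧ Rough m) ∧
    (∀ n : ℕ, 1 ≤ n → ¬ (n ∈ S ∧ q p n ∈ S)) ∧ LawOn S (fun _ _ _ => True) := by
  intro p hp
  obtain ⟨S, h1, h2, h3⟩ := Pool.Agent.U462.Sh.polyFree {f p} (by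
    intro g hg
    rw [mem_singleton] at hg
    rw [hg]
    exact f_deg hp)
  refine ⟨S, h1, ?_, h3⟩
  rintro n hn ⟨h4, h5⟩
  exact h2 (f p) (mem_singleton_self _) n h4 (q p n) h5 (f_eval p n hn).symm

end Pool.Agent.Results.MP_e7655a_nt.NotFromLinearForms
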