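import Pool.Agent.Results.MP_e7655a_nt.ZeroGaps
import Pool.Agent.U319.PW.B

/-!
# MP_e7655a_nt: the zeros of the gcd recursion avoid the powers of almost all real numbers

Let `w n ≥ 0` with `∑ w n / n ^ 2 < ∞`, for example `w n = n / (log n) ^ 2` for `n ≥ 2`. For almost every
real `α > 1`, all primes `p` and all nonzero polynomials `Q` with integer coefficients there is no zero
`k` of `a_p` with `|k - |Q(α)| α ^ n| ≤ w n` when `n` is large, and `a_p(k) ≥ w n` for all these `k`.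

Proof. By the starting result `ZeroGaps` there are at most `C X / (log X) ^ 2` zeros up to `X`. For a zero
`z` between `2 ^ j` and `2 ^ (j + 1)` the `x` in a short interval `[A, B]` with `||Q(x)| x ^ n - z| ≤ W` lie in
an interval of length `8 B W / (n z)`, since the derivative of `log (|Q(x)| x ^ n)` is at least `n / (2 B)` for
large `n`. Only `O(n)` numbers `j` of size `≍ n` occur, so these `x` have measure `O(W / n ^ 2)` in total, and
the lemma of Borel and Cantelli applies. If `a_p(k) < w n` then there is a zero between `k` and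
`k + a_p(k)`.
-/

set_option autoImplicit false

namespace Pool.Agent.Results.MP_e7655a_nt.PowersOfRealNumbers

open MeasureTheory Filter Topology Set Polynomial

/-- the recursion of the problem: `a(1) = 1`, `a(n) = |a(n-1) - gcd(a(n-1), n ^ p - 1)|` for `n ≥ 2` -/
def IsRec (p : ℕ) (a : ℕ → ℤ) : Prop :=
  a 1 = 1 ∧ ∀ n : ℕ, 2 ≤ n →
    a n = |a (n - 1) - ((Int.gcd (a (n - 1)) ((n : ℤ) ^ p - 1) : ℕ) : ℤ)|

/-- all the integers `k ≥ 1` within `W` of the real number `y` are no zeros of `a`, and `a k ≥ W` -/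
def Large (a : ℕ → ℤ) (y W : ℝ) : Prop :=
  ∀ k : ℕ, 1 ≤ k → |(k : ℝ) - y| ≤ W → a k ≠ 0 ∧ W ≤ a k

/-- the solution of the recursion -/
def sq (p : ℕ) : ℕ → ℤ
  | 0 => 0
  | 1 => 1
  | (n + 2) => |sq p (n + 1) - ((Int.gcd (sq p (n + 1)) (((n + 2 : ℕ) : ℤ) ^ p - 1) : ℕ) : ℤ)|

theorem isRec_sq (p : ℕ) : IsRec p (sq p) := by
  refine ⟨rfl, fun n hn => ?_⟩
  obtain ⟨m, rfl⟩ : ∃ m, n = m + 2 := ⟨n - 2, by omega⟩
  have e : m + 2 - 1 = m + 1 := by omega
  rw [e]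
  rfl

theorem unique {p : ℕ} {a : ℕ → ℤ} (h : IsRec p a) : ∀ n : ℕ, 1 ≤ n → a n = sq p n := by
  intro n hn
  induction n, hn using Nat.le_induction with
  | base => exact h.1
  | succ n hn ih =>
    rw [h.2 (n + 1) (by omega), (isRec_sq p).2 (n + 1) (by omega)]
    have e : n + 1 - 1 = n := by omega
    rw [e, ih]

theorem nonneg {p : ℕ} {a : ℕ → ℤ} (h : IsRec p a) (n : ℕ) (hn : 1 ≤ n) : 0 ≤ a n := by
  rcases Nat.lt_or_ge n 2 with h1 | h1
  · have e : n = 1 := by omega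
    rw [e, h.1]
    norm_num
  · rw [h.2 n h1]
    exact abs_nonneg _

theorem exists_zero {p : ℕ} {a : ℕ → ℤ} (h : IsRec p a) : ∀ m k : ℕ, 1 ≤ k → a k = m →
    ∃ z : ℕ, k ≤ z ∧ z ≤ k + m ∧ a z = 0 := by
  intro m
  induction m using Nat.strong_induction_on with
  | _ m ih =>
    intro k hk hak
    rcases Nat.eq_zero_or_pos m with rfl | hm
    · exact ⟨k, le_rfl, by omega, by simpa using hak⟩
    · have h1 := h.2 (k + 1) (by omega)
      have e : k + 1 - 1 = k := by omega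
      rw [e, hak] at h1
      obtain ⟨g, hg⟩ : ∃ g : ℕ, g = Int.gcd (m : ℤ) (((k + 1 : ℕ) : ℤ) ^ p - 1) := ⟨_, rfl⟩
      have hgm : (g : ℤ) ∣ (m : ℤ) := by rw [hg]; exact Int.gcd_dvd_left _ _
      have hgm' : g ∣ m := by exact_mod_cast hgm
      have hgle : g ≤ m := Nat.le_of_dvd hm hgm'
      have hg1 : 1 ≤ g := Nat.one_le_iff_ne_zero.2 fun h0 => by
        rw [h0, Nat.zero_dvd] at hgm'
        omega
      rw [← hg] at h1
      have h2 : a (k + 1) = ((m - g : ℕ) : ℤ) := by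
        rw [h1, abs_of_nonneg (by omega)]
        omega
      obtain ⟨z, hz1, hz2, hz3⟩ := ih (m - g) (by omega) (k + 1) (by omega) h2
      exact ⟨z, by omega, by omega, hz3⟩

theorem sparse (p : ℕ) (hp : p.Prime) :
    ∃ C : ℝ, 0 ≤ C ∧ Pool.Agent.U319.PW.Sparse (fun n => sq p n = 0) C := by
  obtain ⟨c, -, hc⟩ := Pool.Agent.Results.MP_e7655a_nt.ZeroGaps.result
  obtain ⟨-, C, hC⟩ := hc p hp (sq p) (isRec_sq p).1 (isRec_sq p).2
  refine ⟨max C 0, le_max_right _ _, fun X hX => (hC X hX).trans ?_⟩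
  exact mul_le_mul_of_nonneg_right (le_max_left _ _) (by positivity)

theorem large_of {p : ℕ} {w : ℕ → ℝ} (hw0 : ∀ n, 0 ≤ w n) {H : ℝ → ℝ} {α : ℝ} (hα : 1 < α)
    (hH : H α ≠ 0) (hb : α ∉ Pool.Agent.U319.PW.Bad (fun n => sq p n = 0) w H) {a : ℕ → ℤ}
    (ha : IsRec p a) : ∀ᶠ n : ℕ in atTop, Large a (|H α| * α ^ n) (w n) := by
  have h1 : ¬ ∃ᶠ n in atTop, ∃ z : ℕ, 1 ≤ z ∧ sq p z = 0 ∧
      |(z : ℝ) - |H α| * α ^ n| ≤ 2 * w n := fun h => hb ⟨hα, hH, h⟩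
  rw [not_frequently] at h1
  filter_upwards [h1] with n hn k hk hkn
  push Not at hn
  have h0 := hw0 n
  constructor
  · intro hz
    rw [unique ha k hk] at hz
    exact absurd (hn k hk hz) (not_lt.2 (by linarith))
  · by_contra hlt
    push Not at hlt
    obtain ⟨m, hm⟩ : ∃ m : ℕ, a k = m := ⟨(a k).toNat, by
      have := nonneg ha k hk
      omega⟩
    obtain ⟨z, hz1, hz2, hz3⟩ := exists_zero ha m k hk hm
    rw [unique ha z (by omega)] at hz3
    have h2 := hn z (by omega) hz3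
    have h3 : (m : ℝ) < w n := by
      rw [hm] at hlt
      exact_mod_cast hlt
    have h4 : (k : ℝ) ≤ z := by exact_mod_cast hz1
    have h5 : (z : ℝ) ≤ k + m := by exact_mod_cast hz2
    have h6 := abs_le.1 hkn
    have h7 : |(z : ℝ) - |H α| * α ^ n| ≤ 2 * w n := by
      rw [abs_le]
      constructor <;> linarith [h6.1, h6.2]
    exact absurd h2 (not_lt.2 h7)

theorem ae_large (w : ℕ → ℝ) (hw0 : ∀ n, 0 ≤ w n)
    (hw : Summable fun n : ℕ => w n / (n : ℝ) ^ 2) (H : ℝ → ℝ) (hH : ContDiffOn ℝ 1 H (Ioi 1)) :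
    ∀ᵐ α : ℝ, 1 < α → H α ≠ 0 → ∀ p : ℕ, p.Prime → ∀ a : ℕ → ℤ, IsRec p a →
      ∀ᶠ n : ℕ in atTop, Large a (|H α| * α ^ n) (w n) := by
  have h1 : ∀ᵐ α : ℝ, ∀ p : ℕ, p.Prime →
      α ∉ Pool.Agent.U319.PW.Bad (fun n => sq p n = 0) w H := by
    rw [ae_all_iff]
    intro p
    by_cases hp : p.Prime
    · obtain ⟨C, hC, hS⟩ := sparse p hp
      have h2 := Pool.Agent.U319.PW.bad_null hC hS hw0 hw hH
      filter_upwards [measure_eq_zero_iff_ae_notMem.1 h2] with α hα _ using hα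
    · exact Eventually.of_forall fun α h => absurd h hp
  filter_upwards [h1] with α hα h2 h3 p hp a ha
  exact large_of hw0 h2 h3 (hα p hp) ha

/-- Let `w n ≥ 0` and `∑ w n / n ^ 2 < ∞`. (1) For almost every real `α > 1`: for all primes `p`, the
recursion `a = a_p` and all nonzero polynomials `Q` with integer coefficients, if `n` is large then no
`k ≥ 1` with `|k - |Q(α)| α ^ n| ≤ w n` is a zero of `a`, and `a(k) ≥ w n` for all these `k`. (2) The same for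
every `C¹` function `H` on `(1, ∞)` in place of the polynomials, for almost all `α > 1` with
`H(α) ≠ 0`. -/
theorem result (w : ℕ → ℝ) (hw0 : ∀ n, 0 ≤ w n) (hw : Summable fun n : ℕ => w n / (n : ℝ) ^ 2) :
    (∀ᵐ α : ℝ, 1 < α → ∀ p : ℕ, p.Prime → ∀ a : ℕ → ℤ, IsRec p a → ∀ Q : ℤ[X], Q ≠ 0 →
      ∀ᶠ n : ℕ in atTop, Large a (|aeval α Q| * α ^ n) (w n)) ∧
    (∀ H : ℝ → ℝ, ContDiffOn ℝ 1 H (Ioi 1) →
      ∀ᵐ α : ℝ, 1 < α → H α ≠ 0 → ∀ p : ℕ, p.Prime → ∀ a : ℕ → ℤ, IsRec p a →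
        ∀ᶠ n : ℕ in atTop, Large a (|H α| * α ^ n) (w n)) := by
  refine ⟨?_, fun H hH => ae_large w hw0 hw H hH⟩
  haveI : Countable ℤ[X] :=
    Cardinal.mk_le_aleph0_iff.1 ((Polynomial.cardinalMk_le_max).trans (by simp))
  have h1 : ∀ᵐ α : ℝ, ∀ Q : ℤ[X], 1 < α → aeval α Q ≠ 0 → ∀ p : ℕ, p.Prime →
      ∀ a : ℕ → ℤ, IsRec p a → ∀ᶠ n : ℕ in atTop, Large a (|aeval α Q| * α ^ n) (w n) := by
    rw [ae_all_iff]
    intro Q
    exact ae_large w hw0 hw (fun x => aeval x Q) (Polynomial.contDiff_aeval Q 1).contDiffOn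
  have h2 : ∀ᵐ α : ℝ, α ∉ {x : ℝ | IsAlgebraic ℤ x} :=
    (Algebraic.countable ℤ ℝ).ae_notMem _
  filter_upwards [h1, h2] with α hα h3 h4 p hp a ha Q hQ
  refine hα Q h4 (fun h0 => h3 ⟨Q, hQ, h0⟩) p hp a ha

end Pool.Agent.Results.MP_e7655a_nt.PowersOfRealNumbers
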